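import Pool.Agent.Helper34_TDL.Unc

/-!
# Module HLF: class 2, there is no set with `F = -1`
-/

set_option autoImplicit false

namespace Pool.Agent.TDL.H11

open Finset Pool.Agent.TDL.H34
open scoped Classical

variable {T P : Type} {X : Pos T P} {Bad : Finset T → Prop}

lemma exists_wit {x : P} (hx : x ∈ X.A) : ∃ Q, Wit X Bad x Q := by
  obtain ⟨Q, hQ, hmax⟩ := Finset.exists_max_image (X.U.powerset.filter fun Q => X.N x ⊆ Q)
    (fun Q => F X Bad Q) ⟨X.U, by
      rw [Finset.mem_filter, Finset.mem_powerset]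
      exact ⟨Finset.Subset.refl _, X.sub x hx⟩⟩
  rw [Finset.mem_filter, Finset.mem_powerset] at hQ
  refine ⟨Q, hQ.2, hQ.1, fun R hR hRU => hmax R ?_⟩
  rw [Finset.mem_filter, Finset.mem_powerset]
  exact ⟨hRU, hR⟩

lemma F_eq (R : Finset T) : F X Bad R = 2 * ((S X Bad R).card : ℤ) - ph X R := by
  unfold F ph
  ring

/-- `(*)` -/
lemma half_single (h : NG2 X Bad) {Y : Finset T} (hYU : Y ⊆ X.U) (hY : Y.Nonempty)
    (hF : F X Bad Y = -1) (hS : S X Bad Y = ∅) : ∃ z, Y = {z} ∧ (J X {z}).card = 1 := by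
  have hph : ph X Y = 1 := by
    have := F_eq (X := X) (Bad := Bad) Y
    rw [hF, hS, card_empty] at this
    push_cast at this
    linarith
  have hsing := h.g3 Y hYU hph
  have hJz : ∀ z ∈ Y, (J X {z}).card ≤ 1 := by
    intro z hz
    have h1 := h.g0 {z} (Finset.singleton_subset_iff.2 (hYU hz)) (Finset.singleton_nonempty z)
    unfold F at h1
    rw [card_singleton] at h1
    push_cast at h1
    omega
  have hcov : J X Y ⊆ Y.biUnion fun z => J X {z} := by
    intro p hp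
    obtain ⟨a, ha⟩ := Finset.card_eq_one.1 (hsing p hp)
    rw [mem_J'] at hp
    rw [Finset.mem_biUnion]
    refine ⟨a, ?_, ?_⟩
    · apply hp.2
      rw [ha]
      exact Finset.mem_singleton_self a
    · rw [mem_J', ha]
      exact ⟨hp.1, Finset.Subset.refl _⟩
  have hle : (J X Y).card ≤ Y.card := by
    calc (J X Y).card ≤ (Y.biUnion fun z => J X {z}).card := Finset.card_le_card hcov
      _ ≤ ∑ z ∈ Y, (J X {z}).card := Finset.card_biUnion_le
      _ ≤ ∑ z ∈ Y, 1 := Finset.sum_le_sum hJz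
      _ = Y.card := by simp
  have hpos : 0 < Y.card := Finset.card_pos.2 hY
  have hone : Y.card = 1 := by
    unfold ph at hph
    omega
  obtain ⟨z, hz⟩ := Finset.card_eq_one.1 hone
  refine ⟨z, hz, ?_⟩
  unfold ph at hph
  rw [hz] at hph
  rw [card_singleton] at hph
  push_cast at hph
  omega

/-- Two players inside `N x`. -/
lemma two_le_J {x : P} (hx : x ∈ X.A) {z : T} (hz : z ∈ X.N x) (h2 : 2 ≤ (X.N x).card)
    (hJ : (J X {z}).card = 1) : 2 ≤ (J X (X.N x)).card := by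
  obtain ⟨y, hy⟩ := Finset.card_eq_one.1 hJ
  have hyJ : y ∈ J X {z} := by rw [hy]; exact Finset.mem_singleton_self y
  rw [mem_J'] at hyJ
  have hxy : y ≠ x := by
    rintro rfl
    have := Finset.card_le_card hyJ.2
    rw [card_singleton] at this
    omega
  have hsub : ({y, x} : Finset P) ⊆ J X (X.N x) := by
    intro p hp
    rw [Finset.mem_insert, Finset.mem_singleton] at hp
    rw [mem_J']
    rcases hp with rfl | rfl
    · exact ⟨hyJ.1, hyJ.2.trans (Finset.singleton_subset_iff.2 hz)⟩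
    · exact ⟨hx, Finset.Subset.refl _⟩
  have := Finset.card_le_card hsub
  rw [Finset.card_pair hxy] at this
  exact this

theorem hlf : HalfStmt := by
  intro T P X Bad hB h R hRU hR
  by_contra hcon
  have hFR : F X Bad R = -1 := by
    have := h.g0 R hRU hR
    omega
  -- 5.1
  have h51 : ∃ P₀, P₀ ⊆ X.U ∧ P₀.Nonempty ∧ F X Bad P₀ = -1 ∧ (S X Bad P₀).Nonempty := by
    by_cases hS : S X Bad R = ∅
    · obtain ⟨z, hz, hJ⟩ := half_single h hRU hR hFR hS
      have hzU : z ∈ X.U := hRU (by rw [hz]; exact Finset.mem_singleton_self z)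
      obtain ⟨x, hx, hzx, hx2⟩ := h.pen z hzU hJ
      obtain ⟨Q, hQ⟩ := exists_wit (Bad := Bad) hx
      have hJx := two_le_J hx hzx hx2 hJ
      have hQ1 := h.g2 x hx Q hQ hJx
      have hQne : Q.Nonempty := ⟨z, hQ.1 hzx⟩
      refine ⟨Q, hQ.2.1, hQne, hQ1, ?_⟩
      rw [Finset.nonempty_iff_ne_empty]
      intro hSQ
      obtain ⟨w, hw, -⟩ := half_single h hQ.2.1 hQne hQ1 hSQ
      have := Finset.card_le_card hQ.1
      rw [hw, card_singleton] at this
      omega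
    · exact ⟨R, hRU, hR, hFR, Finset.nonempty_iff_ne_empty.2 hS⟩
  -- 5.2
  obtain ⟨P₀, hP, hmin⟩ := Finset.exists_min_image
    (X.U.powerset.filter fun P₀ => P₀.Nonempty ∧ F X Bad P₀ = -1 ∧ (S X Bad P₀).Nonempty)
    (fun P₀ => P₀.card) (by
      obtain ⟨P₀, h1, h2⟩ := h51
      exact ⟨P₀, Finset.mem_filter.2 ⟨Finset.mem_powerset.2 h1, h2⟩⟩)
  rw [Finset.mem_filter, Finset.mem_powerset] at hP
  obtain ⟨hPU, hPne, hFP, V₀, hV₀⟩ := hP
  -- 5.3
  obtain ⟨x, hx, hxm, hxV⟩ := h.tok V₀ (S_bad hV₀)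
  obtain ⟨Q, hQ⟩ := exists_wit (Bad := Bad) hx
  obtain ⟨hNQ, hQU, hQmax⟩ := hQ
  have hQw : Wit X Bad x Q := ⟨hNQ, hQU, hQmax⟩
  obtain ⟨w, hwN, hwV⟩ := Finset.not_subset.1 hxV
  have hwP : w ∈ P₀ := by
    rcases Finset.mem_union.1 (S_N hV₀ hx hxm hwN) with h1 | h1
    · exact absurd h1 hwV
    · exact h1
  have hwQ : w ∈ Q := hNQ hwN
  have hC := hB V₀ (S_bad hV₀)
  have htwo := hC.two x hx hxm
  have hN2 : 2 ≤ (X.N x).card := by
    have := Finset.card_le_card (Finset.inter_subset_left : X.N x ∩ V₀ ⊆ X.N x)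
    omega
  have hV₀Q2 : 2 ≤ (V₀ ∩ Q).card := by
    rw [← htwo]
    apply Finset.card_le_card
    intro a ha
    rw [Finset.mem_inter] at ha ⊢
    exact ⟨ha.2, hNQ ha.1⟩
  have hV₀Q : ¬ Disjoint V₀ Q := by
    rw [Finset.not_disjoint_iff_nonempty_inter, ← Finset.card_pos]
    omega
  have hV₀H : V₀ ∈ H X Bad P₀ Q := mem_H.2 ⟨hV₀, hV₀Q⟩
  have hh1 : 1 ≤ (H X Bad P₀ Q).card := Finset.card_pos.2 ⟨V₀, hV₀H⟩
  -- (H)
  have hHH : 2 * ((H X Bad P₀ Q).card : ℤ) + 1 ≤ ∑ V ∈ H X Bad P₀ Q, cost X V Q := by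
    rw [← Finset.add_sum_erase _ _ hV₀H]
    have h1 : ∑ V ∈ (H X Bad P₀ Q).erase V₀, (2 : ℤ) ≤
        ∑ V ∈ (H X Bad P₀ Q).erase V₀, cost X V Q := by
      apply Finset.sum_le_sum
      intro V hV
      have hV' := mem_H.1 (Finset.mem_of_mem_erase hV)
      exact two_le_cost (hB V (S_bad hV'.1)) hV'.2
    rw [Finset.sum_const, Finset.card_erase_of_mem hV₀H, nsmul_eq_mul] at h1
    push_cast [Nat.cast_sub hh1] at h1
    have h2 := three_le_cost (Q := Q) hC hV₀Q2
    linarith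
  have hD := sum_cost_ge hB (X := X) P₀ Q
  have hLH : (L X Bad P₀ Q).card ≤ (H X Bad Q P₀).card := Finset.card_le_card (L_sub_H hB)
  have hrem := rem_hit hB P₀ Q
  have hun1 := uncross hB P₀ Q
  have hun2 := uncross hB Q P₀
  -- (C)
  have hCne : (Q \ hit X Bad P₀ Q).Nonempty := by
    refine ⟨w, Finset.mem_sdiff.2 ⟨hwQ, fun hh => ?_⟩⟩
    exact (Finset.disjoint_left.1 hit_disj) hh hwP
  have hFC : F X Bad (Q \ hit X Bad P₀ Q) ≤ -1 :=
    h.g0 _ (Finset.sdiff_subset.trans hQU) hCne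
  -- (A')
  have hFA : F X Bad (Q ∪ (P₀ \ hit X Bad Q P₀)) ≤ F X Bad Q :=
    hQmax _ (hNQ.trans Finset.subset_union_left)
      (Finset.union_subset hQU (Finset.sdiff_subset.trans hPU))
  -- (U)
  have hFU : F X Bad (P₀ ∪ (Q \ hit X Bad P₀ Q)) ≤ -1 :=
    h.g0 _ (Finset.union_subset hPU (Finset.sdiff_subset.trans hQU))
      (hPne.mono Finset.subset_union_left)
  have hTU : P₀ ∩ Q ⊆ X.U := Finset.inter_subset_left.trans hPU
  have hTne : (P₀ ∩ Q).Nonempty := ⟨w, Finset.mem_inter.2 ⟨hwP, hwQ⟩⟩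
  have hFT : F X Bad (P₀ ∩ Q) ≤ -1 := h.g0 _ hTU hTne
  have hFQ : F X Bad Q ≤ -1 := h.g0 _ hQU ⟨w, hwQ⟩
  have hFQ4 : -4 ≤ F X Bad Q := h.g1 x hx Q hQw
  rw [Finset.inter_comm Q P₀] at hun2
  have hq4 : F X Bad Q = -4 := by omega
  have hJx : (J X (X.N x)).card < 2 := by
    by_contra hge
    have := h.g2 x hx Q hQw (by omega)
    omega
  by_cases hPQ : P₀ ⊆ Q
  · -- `P₀ ⊆ Q`
    have hH0 : H X Bad Q P₀ = ∅ := by
      rw [Finset.eq_empty_iff_forall_notMem]
      intro V hV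
      rw [mem_H] at hV
      exact hV.2 ((S_disj hV.1).mono_right hPQ)
    rw [hH0, card_empty] at hLH
    have hl0 : (L X Bad P₀ Q).card = 0 := by omega
    have hrem' := rem_hit' hB hV₀H (fun p hp hm =>
      (S_N hV₀ hp hm).trans (Finset.union_subset_union (Finset.Subset.refl _) hPQ))
    rw [hl0] at hrem'
    push_cast at hrem'
    omega
  · have hFT2 : F X Bad (P₀ ∩ Q) ≤ -2 := by
      by_contra hgt
      have hT1 : F X Bad (P₀ ∩ Q) = -1 := by omega
      have hlt : (P₀ ∩ Q).card < P₀.card := by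
        apply Finset.card_lt_card
        rw [Finset.ssubset_iff_subset_ne]
        refine ⟨Finset.inter_subset_left, fun he => hPQ ?_⟩
        exact Finset.inter_eq_left.1 he
      have hST : S X Bad (P₀ ∩ Q) = ∅ := by
        by_contra hne
        have := hmin (P₀ ∩ Q) (Finset.mem_filter.2 ⟨Finset.mem_powerset.2 hTU, hTne, hT1,
          Finset.nonempty_iff_ne_empty.2 hne⟩)
        omega
      obtain ⟨z, hz, hJz⟩ := half_single h hTU hTne hT1 hST
      have hwz : w = z := by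
        have : w ∈ P₀ ∩ Q := Finset.mem_inter.2 ⟨hwP, hwQ⟩
        rw [hz, Finset.mem_singleton] at this
        exact this
      rw [← hwz] at hJz
      have := two_le_J hx hwN hN2 hJz
      omega
    omega

end Pool.Agent.TDL.H11
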